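import Pool.Agent.Lib.MP_cbe697_nt.QPart

set_option autoImplicit false

namespace Pool.Agent.Lib.MP_cbe697_nt

open Finset

theorem sum_tuple_succ (m k : ℕ) (F : (Fin (m + 1) → ℕ) → ℤ) :
    ∑ f ∈ Finset.Nat.antidiagonalTuple (m + 1) k, F f =
      ∑ j ∈ range (k + 1), ∑ g ∈ Finset.Nat.antidiagonalTuple m j, F (Fin.cons (k - j) g) := by
  rw [sum_sigma']
  refine sum_bij' (fun f _ => ⟨∑ i, Fin.tail f i, Fin.tail f⟩)
    (fun x _ => Fin.cons (k - x.1) x.2) ?_ ?_ ?_ ?_ ?_
  · intro f hf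
    rw [Finset.Nat.mem_antidiagonalTuple, Fin.sum_univ_succ] at hf
    simp only [mem_sigma, mem_range, Finset.Nat.mem_antidiagonalTuple, and_true, Fin.tail]
    omega
  · intro x hx
    simp only [mem_sigma, mem_range, Finset.Nat.mem_antidiagonalTuple] at hx
    rw [Finset.Nat.mem_antidiagonalTuple, Fin.sum_univ_succ]
    simp only [Fin.cons_zero, Fin.cons_succ]
    omega
  · intro f hf
    rw [Finset.Nat.mem_antidiagonalTuple, Fin.sum_univ_succ] at hf
    have : k - ∑ i, Fin.tail f i = f 0 := by simp only [Fin.tail]; omega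
    simp only [this, Fin.cons_self_tail]
  · rintro ⟨j, g⟩ hx
    simp only [mem_sigma, mem_range, Finset.Nat.mem_antidiagonalTuple] at hx
    simp only [Fin.tail_cons, hx.2]
  · intro f hf
    rw [Finset.Nat.mem_antidiagonalTuple, Fin.sum_univ_succ] at hf
    have : k - ∑ i, Fin.tail f i = f 0 := by simp only [Fin.tail]; omega
    simp only [this, Fin.cons_self_tail]

theorem multinomial_fin_cons (m a : ℕ) (g : Fin m → ℕ) :
    Nat.multinomial univ (Fin.cons a g : Fin (m + 1) → ℕ) =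
      (a + ∑ i, g i).choose (∑ i, g i) * Nat.multinomial univ g := by
  have h1 := Nat.multinomial_spec univ (Fin.cons a g : Fin (m + 1) → ℕ)
  have h2 := Nat.multinomial_spec univ g
  rw [Fin.prod_univ_succ, Fin.sum_univ_succ] at h1
  simp only [Fin.cons_zero, Fin.cons_succ] at h1
  have h3 := Nat.add_choose_mul_factorial_mul_factorial a (∑ i, g i)
  have hpos : 0 < a.factorial * ∏ i, (g i).factorial :=
    Nat.mul_pos (Nat.factorial_pos _) (prod_pos fun i _ => Nat.factorial_pos _)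
  apply Nat.eq_of_mul_eq_mul_left hpos
  rw [h1, ← h3, ← h2]
  ring

def MM (m k r : ℕ) : ℤ :=
  ∑ f ∈ Finset.Nat.antidiagonalTuple m k, (Nat.multinomial univ f : ℤ) ^ r

theorem weighted_succ (m k r : ℕ) (w : ℕ → ℤ) :
    ∑ f ∈ Finset.Nat.antidiagonalTuple (m + 1) k, w (f 0) * (Nat.multinomial univ f : ℤ) ^ r =
      ∑ j ∈ range (k + 1), w (k - j) * (k.choose j : ℤ) ^ r * MM m j r := by
  rw [sum_tuple_succ]
  refine sum_congr rfl fun j hj => ?_
  rw [MM, mul_sum]
  refine sum_congr rfl fun g hg => ?_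
  rw [Finset.Nat.mem_antidiagonalTuple] at hg
  have : k - j + j = k := by have := mem_range.1 hj; omega
  rw [multinomial_fin_cons, hg, this, Fin.cons_zero]
  push_cast
  ring

theorem weighted_symm (m k r : ℕ) (i : Fin (m + 1)) :
    ∑ f ∈ Finset.Nat.antidiagonalTuple (m + 1) k, (f i : ℤ) * (Nat.multinomial univ f : ℤ) ^ r =
      ∑ f ∈ Finset.Nat.antidiagonalTuple (m + 1) k,
        (f 0 : ℤ) * (Nat.multinomial univ f : ℤ) ^ r := by
  have hs : ∀ f : Fin (m + 1) → ℕ, ∑ x, f (Equiv.swap i 0 x) = ∑ x, f x :=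
    fun f => Equiv.sum_comp (Equiv.swap i 0) f
  refine sum_bij' (fun f _ => f ∘ Equiv.swap i 0) (fun f _ => f ∘ Equiv.swap i 0) ?_ ?_ ?_ ?_ ?_
  · intro f hf
    rw [Finset.Nat.mem_antidiagonalTuple] at hf ⊢
    rw [← hf]; exact hs f
  · intro f hf
    rw [Finset.Nat.mem_antidiagonalTuple] at hf ⊢
    rw [← hf]; exact hs f
  · intro f _; ext x; simp
  · intro f _; ext x; simp
  · intro f _
    have : Nat.multinomial univ (f ∘ Equiv.swap i 0) = Nat.multinomial univ f := by
      unfold Nat.multinomial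
      congr 1
      · congr 1; exact hs f
      · exact Equiv.prod_comp (Equiv.swap i 0) (fun x => (f x).factorial)
    rw [this]
    simp

theorem key_id (m k r : ℕ) :
    ((((m + 1 : ℕ) : ℤ) + 1) * k + (m + 1 : ℕ)) * MM (m + 1) k r =
      (m + 1 : ℕ) * ∑ j ∈ range (k + 1), (2 * k + 1 - j : ℤ) * (k.choose j : ℤ) ^ r * MM m j r := by
  have h1 : (k : ℤ) * MM (m + 1) k r = (m + 1 : ℕ) *
      ∑ j ∈ range (k + 1), ((k - j : ℕ) : ℤ) * (k.choose j : ℤ) ^ r * MM m j r := by
    rw [← weighted_succ m k r (fun a => (a : ℤ)), MM, mul_sum]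
    have : ∀ f ∈ Finset.Nat.antidiagonalTuple (m + 1) k,
        (k : ℤ) * (Nat.multinomial univ f : ℤ) ^ r =
          ∑ i, (f i : ℤ) * (Nat.multinomial univ f : ℤ) ^ r := by
      intro f hf
      rw [Finset.Nat.mem_antidiagonalTuple] at hf
      rw [← sum_mul, ← hf]; push_cast; rfl
    rw [sum_congr rfl this, sum_comm, sum_congr rfl fun i _ => weighted_symm m k r i]
    simp
  have h2 : MM (m + 1) k r = ∑ j ∈ range (k + 1), 1 * (k.choose j : ℤ) ^ r * MM m j r := by
    rw [← weighted_succ m k r (fun _ => 1), MM]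
    simp
  have h3 : ∑ j ∈ range (k + 1), (2 * k + 1 - j : ℤ) * (k.choose j : ℤ) ^ r * MM m j r =
      (k + 1) * ∑ j ∈ range (k + 1), 1 * (k.choose j : ℤ) ^ r * MM m j r +
      ∑ j ∈ range (k + 1), ((k - j : ℕ) : ℤ) * (k.choose j : ℤ) ^ r * MM m j r := by
    rw [mul_sum, ← sum_add_distrib]
    refine sum_congr rfl fun j hj => ?_
    have := mem_range.1 hj
    rw [Nat.cast_sub (by omega)]
    ring
  rw [h3, mul_add, ← h1, ← h2]
  ring

theorem dvd_D' (n j r : ℕ) (hn : 0 < n) (hj : j < n) :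
    (n : ℤ) ∣ ∑ k ∈ range n,
      if j ≤ k then (-1) ^ (r * k) * ((2 * k + 1 - j : ℤ) * (k.choose j : ℤ) ^ r) else 0 := by
  rcases eq_or_ne r 0 with rfl | hr
  · have : ∀ N : ℕ, j ≤ N → ∑ k ∈ range N,
        (if j ≤ k then (-1) ^ (0 * k) * ((2 * k + 1 - j : ℤ) * (k.choose j : ℤ) ^ 0) else 0) =
          (N : ℤ) * (N - j) := by
      intro N hN
      induction N, hN using Nat.le_induction with
      | base =>
        rw [sum_eq_zero fun k hk => if_neg (by have := mem_range.1 hk; omega)]; ring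
      | succ N hN ih => rw [sum_range_succ, ih, if_pos hN]; push_cast; ring
    rw [this n hj.le]
    exact dvd_mul_right _ _
  · convert dvd_D n hn j r hr using 1
    refine sum_congr rfl fun k _ => ?_
    split_ifs with h
    · rw [mul_pow, ← pow_mul, mul_comm k r]; ring
    · rw [Nat.choose_eq_zero_of_lt (by omega)]; simp [hr]

theorem main (m n r : ℕ) (hm : 1 ≤ m) (hn : 1 ≤ n) :
    ((m : ℤ) * n) ∣ ∑ k ∈ range n, (-1 : ℤ) ^ (r * k) * (((m : ℤ) + 1) * k + m) * MM m k r := by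
  obtain ⟨m, rfl⟩ : ∃ m', m = m' + 1 := ⟨m - 1, by omega⟩
  have h1 : ∀ k ∈ range n,
      (-1 : ℤ) ^ (r * k) * ((((m + 1 : ℕ) : ℤ) + 1) * k + (m + 1 : ℕ)) * MM (m + 1) k r =
      (m + 1 : ℕ) * ∑ j ∈ range n,
        (if j ≤ k then (-1) ^ (r * k) * ((2 * k + 1 - j : ℤ) * (k.choose j : ℤ) ^ r) else 0) *
          MM m j r := by
    intro k hk
    have hk' := mem_range.1 hk
    rw [mul_assoc, key_id, mul_left_comm, mul_sum]
    congr 1
    have hsub : range (k + 1) ⊆ range n := range_subset_range.2 (by omega)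
    rw [← sum_subset hsub]
    · refine sum_congr rfl fun j hj => ?_
      rw [if_pos (by have := mem_range.1 hj; omega)]; ring
    · intro j _ hj
      rw [if_neg (by rw [mem_range] at hj; omega), zero_mul]
  rw [sum_congr rfl h1, ← mul_sum, sum_comm]
  refine mul_dvd_mul_left _ (dvd_sum fun j hj => ?_)
  rw [← sum_mul]
  exact dvd_mul_of_dvd_left (dvd_D' n j r hn (mem_range.1 hj)) _

end Pool.Agent.Lib.MP_cbe697_nt
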