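import Mathlib

set_option autoImplicit false

namespace Pool.Agent.Lib.MP_cbe697_nt

open Finset Polynomial

def gb {R : Type*} [CommRing R] (q : R) : ℕ → ℕ → R
  | _, 0 => 1
  | 0, _ + 1 => 0
  | k + 1, j + 1 => gb q k j + q ^ (j + 1) * gb q k (j + 1)

theorem gb_zero {R : Type*} [CommRing R] (q : R) (k : ℕ) : gb q k 0 = 1 := by
  cases k <;> rfl

theorem map_gb {R S : Type*} [CommRing R] [CommRing S] (φ : R →+* S) (q : R) (k j : ℕ) :
    φ (gb q k j) = gb (φ q) k j := by
  induction k generalizing j with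
  | zero => cases j <;> simp [gb]
  | succ k ih => cases j <;> simp [gb, ih]

theorem gb_one (k j : ℕ) : gb (1 : ℤ) k j = k.choose j := by
  induction k generalizing j with
  | zero => cases j <;> simp [gb]
  | succ k ih => cases j <;> simp [gb, ih, Nat.choose_succ_succ]

theorem gb_B_of_A {R : Type*} [CommRing R] (q : R) (k : ℕ)
    (hA : ∀ j, (1 - q ^ (j + 1)) * gb q (k + 1) (j + 1) = (1 - q ^ (k + 1)) * gb q k j) (j : ℕ) :
    q ^ j * (1 - q ^ (k + 1)) * gb q k j = (q ^ j - q ^ (k + 1)) * gb q (k + 1) j := by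
  cases j with
  | zero => simp [gb_zero]
  | succ j =>
    have h1 := hA j
    have h2 : gb q (k + 1) (j + 1) = gb q k j + q ^ (j + 1) * gb q k (j + 1) := rfl
    linear_combination h1 - (1 - q ^ (k + 1)) * h2

theorem gb_A {R : Type*} [CommRing R] (q : R) (k j : ℕ) :
    (1 - q ^ (j + 1)) * gb q (k + 1) (j + 1) = (1 - q ^ (k + 1)) * gb q k j := by
  induction k generalizing j with
  | zero => cases j <;> simp [gb]
  | succ k ih =>
    have h1 := ih j
    have h2 := gb_B_of_A q k ih j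
    have h3 : gb q (k + 1 + 1) (j + 1) = gb q (k + 1) j + q ^ (j + 1) * gb q (k + 1) (j + 1) := rfl
    rw [h3]
    linear_combination q ^ (j + 1) * h1 + q * h2

theorem gb_B {R : Type*} [CommRing R] (q : R) (k j : ℕ) :
    q ^ j * (1 - q ^ (k + 1)) * gb q k j = (q ^ j - q ^ (k + 1)) * gb q (k + 1) j :=
  gb_B_of_A q k (gb_A q k) j

def tt {R : Type*} [CommRing R] (q u : R) (j k : ℕ) : R :=
  (-1) ^ k * u ^ ((k + 1).choose 2) * gb q k j

theorem tt_rec {R : Type*} [CommRing R] (q u : R) (h : q * u = 1) (j k : ℕ) :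
    (1 - u ^ (k + 1)) * tt q u j k = (1 - q ^ (k + 1) * u ^ j) * tt q u j (k + 1) := by
  have h1 := gb_B q k j
  have hj : q ^ j * u ^ j = 1 := by rw [← mul_pow, h, one_pow]
  have hk : q ^ (k + 1) * u ^ (k + 1) = 1 := by rw [← mul_pow, h, one_pow]
  have e : (k + 1 + 1).choose 2 = (k + 1) + (k + 1).choose 2 := by
    rw [Nat.choose_succ_succ' (k + 1) 1, Nat.choose_one_right]
  have h2 : (1 - q ^ (k + 1) * u ^ j) * gb q (k + 1) j = (1 - q ^ (k + 1)) * gb q k j := by
    linear_combination (-u ^ j) * h1 - gb q (k + 1) j * hj + (1 - q ^ (k + 1)) * gb q k j * hj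
  unfold tt
  rw [e, pow_add u (k + 1), pow_succ (-1 : R)]
  linear_combination ((-1) ^ k * u ^ (k + 1) * u ^ ((k + 1).choose 2)) * h2
    - ((-1) ^ k * u ^ ((k + 1).choose 2) * gb q k j) * hk

theorem sym_lemma {K : Type*} [Field K] (q : K) (e : ℕ) (hq : ∀ i, 0 < i → i ≤ e → q ^ i ≠ 1)
    (s : ℕ → K) (hs : ∀ a, a < e → (1 - q ^ (e - a)) * s a = (1 - q ^ (a + 1)) * s (a + 1))
    (a : ℕ) (ha : a ≤ e) : s a = s (e - a) := by
  set P : ℕ → K := fun m => ∏ l ∈ range m, (1 - q ^ (l + 1)) with hP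
  have hP0 : ∀ m, m ≤ e → P m ≠ 0 := by
    intro m hm
    refine Finset.prod_ne_zero_iff.2 fun l hl => ?_
    have := mem_range.1 hl
    exact sub_ne_zero.2 (hq (l + 1) (by omega) (by omega)).symm
  have hPs : ∀ m, P (m + 1) = P m * (1 - q ^ (m + 1)) := fun m => prod_range_succ _ _
  have key : ∀ b, b ≤ e → s b * P b * P (e - b) = s 0 * P 0 * P (e - 0) := by
    intro b
    induction b with
    | zero => intro _; rfl
    | succ b ih =>
      intro hb
      rw [← ih (by omega)]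
      have e1 : e - b = (e - (b + 1)) + 1 := by omega
      have h1 := hs b (by omega)
      rw [e1] at h1
      rw [e1, hPs, hPs]
      linear_combination (-(P b * P (e - (b + 1)))) * h1
  have h1 := key a ha
  have h2 := key (e - a) (by omega)
  have e2 : e - (e - a) = a := by omega
  rw [e2] at h2
  have h3 : P a * P (e - a) ≠ 0 := mul_ne_zero (hP0 a ha) (hP0 _ (by omega))
  apply mul_right_cancel₀ h3
  linear_combination h1 - h2

theorem block_lemma {K : Type*} [Field K] (q u : K) (h : q * u = 1) (d : ℕ) (hd : q ^ d = 1)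
    (hq : ∀ i, 0 < i → i < d → q ^ i ≠ 1) (j0 : ℕ) (hj : j0 < d) (r : ℕ) (hr : r ≠ 0)
    (s : ℕ → K)
    (hs : ∀ i, (1 - u ^ (i + 1)) * s i = (1 - q ^ (i + 1) * u ^ j0) * s (i + 1)) :
    ∑ i ∈ range d, s i ^ r * (q ^ i * u ^ j0 - u ^ (i + 1)) = 0 := by
  have hqu : ∀ i, q ^ i * u ^ i = 1 := fun i => by rw [← mul_pow, h, one_pow]
  have hu : ∀ i m, i + m = d → u ^ i = q ^ m := by
    intro i m him
    have : q ^ d = q ^ i * q ^ m := by rw [← pow_add, him]
    rw [hd] at this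
    linear_combination (u ^ i) * this + q ^ m * hqu i
  have hz : ∀ c i, i + c + 1 = j0 → s i = 0 := by
    intro c
    induction c with
    | zero =>
      intro i hi
      have h1 := hs i
      have e : i + 1 = j0 := by omega
      rw [e, hqu, sub_self, zero_mul, hu j0 (d - j0) (by omega)] at h1
      exact (mul_eq_zero.1 h1).resolve_left
        (sub_ne_zero.2 (hq _ (by omega) (by omega)).symm)
    | succ c ih =>
      intro i hi
      have h1 := hs i
      rw [ih (i + 1) (by omega), mul_zero, hu (i + 1) (d - (i + 1)) (by omega)] at h1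
      exact (mul_eq_zero.1 h1).resolve_left
        (sub_ne_zero.2 (hq _ (by omega) (by omega)).symm)
  obtain ⟨e, rfl⟩ : ∃ e, d = j0 + (e + 1) := ⟨d - j0 - 1, by omega⟩
  rw [sum_range_add, sum_eq_zero, zero_add]
  · have hsym := sym_lemma q e (fun i h0 h1 => hq i h0 (by omega)) (fun a => s (j0 + a)) (by
      intro a ha
      have h1 := hs (j0 + a)
      rw [hu (j0 + a + 1) (e - a) (by omega)] at h1
      have h2 : q ^ (j0 + a + 1) * u ^ j0 = q ^ (a + 1) := by
        rw [add_assoc, pow_add]; linear_combination q ^ (a + 1) * hqu j0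
      rw [h2] at h1
      exact h1)
    have h1 : ∀ a ∈ range (e + 1), s (j0 + a) ^ r * (q ^ (j0 + a) * u ^ j0 - u ^ (j0 + a + 1)) =
        s (j0 + a) ^ r * q ^ a - s (j0 + (e + 1 - 1 - a)) ^ r * q ^ (e + 1 - 1 - a) := by
      intro a ha
      have ha' := mem_range.1 ha
      have h2 : q ^ (j0 + a) * u ^ j0 = q ^ a := by
        rw [pow_add]; linear_combination q ^ a * hqu j0
      have h3 := hsym a (by omega)
      rw [h2, hu (j0 + a + 1) (e - a) (by omega), Nat.add_sub_cancel, ← h3]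
      ring
    rw [sum_congr rfl h1, sum_sub_distrib,
      sum_range_reflect (fun a => s (j0 + a) ^ r * q ^ a) (e + 1), sub_self]
  · intro i hi
    have := mem_range.1 hi
    rw [hz (j0 - i - 1) i (by omega), zero_pow hr, zero_mul]

theorem root_lemma {K : Type*} [Field K] (q u : K) (h : q * u = 1) (n : ℕ) (hn : 0 < n)
    (hq : q ^ n = 1) (j r : ℕ) (hr : r ≠ 0) :
    ∑ k ∈ range n, tt q u j k ^ r * (q ^ k * u ^ j - u ^ (k + 1)) = 0 := by
  set d := orderOf q with hd
  have hfin : IsOfFinOrder q := isOfFinOrder_iff_pow_eq_one.2 ⟨n, hn, hq⟩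
  have hd0 : 0 < d := hfin.orderOf_pos
  have hqd : q ^ d = 1 := pow_orderOf_eq_one q
  have hud : u ^ d = 1 := by
    have : q ^ d * u ^ d = 1 := by rw [← mul_pow, h, one_pow]
    rwa [hqd, one_mul] at this
  obtain ⟨n', hn'⟩ : d ∣ n := orderOf_dvd_of_pow_eq_one hq
  have huj : u ^ j = u ^ (j % d) := by
    conv_lhs => rw [← Nat.div_add_mod j d, pow_add, pow_mul, hud, one_pow, one_mul]
  rw [hn']
  clear hn'
  induction n' with
  | zero => simp
  | succ n' ih =>
    rw [Nat.mul_succ, sum_range_add, ih, zero_add]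
    have hqB : ∀ i, q ^ (d * n' + i) = q ^ i := fun i => by
      rw [pow_add, pow_mul, hqd, one_pow, one_mul]
    have huB : ∀ i, u ^ (d * n' + i) = u ^ i := fun i => by
      rw [pow_add, pow_mul, hud, one_pow, one_mul]
    have := block_lemma q u h d hqd
      (fun i h0 h1 => pow_ne_one_of_lt_orderOf h0.ne' h1) (j % d) (Nat.mod_lt _ hd0) r hr
      (fun i => tt q u j (d * n' + i)) (fun i => by
        have h1 := tt_rec q u h j (d * n' + i)
        rw [add_assoc, hqB, huB, huj] at h1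
        exact h1)
    rw [← this]
    refine sum_congr rfl fun i _ => ?_
    rw [add_assoc, hqB, huB, huj]

theorem map_tt {R S : Type*} [CommRing R] [CommRing S] (φ : R →+* S) (q u : R) (j k : ℕ) :
    φ (tt q u j k) = tt (φ q) (φ u) j k := by
  simp [tt, map_gb]

theorem X_pow_sub_one_dvd (n : ℕ) (hn : 0 < n) (H : ℤ[X])
    (hH : ∀ z : ℂ, z ^ n = 1 → eval₂RingHom (Int.castRingHom ℂ) z H = 0) :
    (X ^ n - 1 : ℤ[X]) ∣ H := by
  have hm : (X ^ n - 1 : ℤ[X]).Monic := by
    simpa using monic_X_pow_sub_C (1 : ℤ) hn.ne'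
  rw [← map_dvd_map (Int.castRingHom ℂ) (RingHom.injective_int _) hm]
  rw [Polynomial.map_sub, Polynomial.map_pow, map_X, Polynomial.map_one,
    X_pow_sub_one_eq_prod hn (Complex.isPrimitiveRoot_exp n hn.ne')]
  refine Finset.prod_dvd_of_coprime
    ((pairwise_coprime_X_sub_C (s := fun z : ℂ => z) fun _ _ h => h).set_pairwise _) fun z hz => ?_
  rw [dvd_iff_isRoot, IsRoot, eval_map]
  exact hH z ((mem_nthRootsFinset hn 1).1 hz)

theorem dvd_D (n : ℕ) (hn : 0 < n) (j r : ℕ) (hr : r ≠ 0) :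
    (n : ℤ) ∣ ∑ k ∈ range n, ((-1) ^ k * (k.choose j : ℤ)) ^ r * (2 * k + 1 - j) := by
  obtain ⟨N, rfl⟩ : ∃ N, n = N + 1 := ⟨n - 1, by omega⟩
  set G : ℕ → ℤ[X] := fun a => ∑ i ∈ range a, X ^ i with hG
  have hGm : ∀ a, G a * (X - 1) = X ^ a - 1 := fun a => geom_sum_mul _ _
  have hG1 : ∀ a, (G a).eval 1 = a := fun a => by simp [hG, eval_finsetSum]
  have h1 := X_pow_sub_one_dvd (N + 1) hn
    (∑ k ∈ range (N + 1), tt (X : ℤ[X]) (X ^ N) j k ^ r * (X ^ k * (X ^ N) ^ j - (X ^ N) ^ (k + 1)))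
    (fun z hz => by
      rw [← root_lemma z (z ^ N) (by rw [← hz]; ring) (N + 1) hn hz j r hr, map_sum]
      refine sum_congr rfl fun k _ => ?_
      simp only [map_mul, map_pow, map_tt, map_sub, coe_eval₂RingHom, eval₂_X])
  have h2 : ∑ k ∈ range (N + 1),
      tt (X : ℤ[X]) (X ^ N) j k ^ r * (X ^ k * (X ^ N) ^ j - (X ^ N) ^ (k + 1)) =
      (∑ k ∈ range (N + 1), tt (X : ℤ[X]) (X ^ N) j k ^ r * (G (k + N * j) - G (N * (k + 1)))) *
        (X - 1) := by
    rw [sum_mul]
    refine sum_congr rfl fun k _ => ?_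
    rw [mul_assoc, sub_mul, hGm, hGm, pow_add X k, pow_mul, pow_mul]
    ring
  have hX : (X - 1 : ℤ[X]) ≠ 0 := by simpa using X_sub_C_ne_zero (1 : ℤ)
  rw [h2, ← hGm, mul_dvd_mul_iff_right hX] at h1
  have h3 := eval_dvd (x := 1) h1
  rw [hG1, eval_finsetSum] at h3
  have h4 : ∀ k ∈ range (N + 1),
      eval 1 (tt (X : ℤ[X]) (X ^ N) j k ^ r * (G (k + N * j) - G (N * (k + 1)))) =
      ((-1) ^ k * (k.choose j : ℤ)) ^ r * (2 * k + 1 - j) +
        ((N + 1 : ℕ) : ℤ) * (((-1) ^ k * (k.choose j : ℤ)) ^ r * (j - k - 1)) := by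
    intro k _
    have := map_tt (evalRingHom (1 : ℤ)) X (X ^ N) j k
    simp only [coe_evalRingHom, eval_X, eval_pow, one_pow] at this
    rw [eval_mul, eval_pow, eval_sub, hG1, hG1, this, tt, gb_one]
    push_cast
    ring
  rw [sum_congr rfl h4, sum_add_distrib, ← mul_sum] at h3
  exact (dvd_add_left (dvd_mul_right _ _)).1 h3

end Pool.Agent.Lib.MP_cbe697_nt
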